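import Pool.Agent.W172.MK.Stm

set_option autoImplicit false

open MeasureTheory ProbabilityTheory Filter Topology

namespace Pool.Agent.W924.MK

open Pool.Agent.W172.MK

lemma integral_eval {S : Type} [MeasurableSpace S] (μ : Measure S) [IsProbabilityMeasure μ]
    (a : ℤ) (g : S → ℝ) (hg : Measurable g) : ∫ ω, g (ω a).1 ∂(PM μ) = ∫ z, g z ∂μ := by
  have h1 : MeasurePreserving (fun ω : Om S => ω a) (PM μ)
      (μ.prod (volume : Measure unitInterval)) :=
    measurePreserving_eval_infinitePi (fun _ : ℤ => μ.prod (volume : Measure unitInterval)) a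
  have h2 : MeasurePreserving (Prod.fst : S × unitInterval → S)
      (μ.prod (volume : Measure unitInterval)) μ := measurePreserving_fst
  have h3 : MeasurePreserving (fun ω : Om S => (ω a).1) (PM μ) μ := h2.comp h1
  conv_rhs => rw [← h3.map_eq]
  rw [integral_map h3.aemeasurable hg.aestronglyMeasurable]

theorem law : P_XM → P_INDEP → P_BR → P_LAW := by
  intro _ hI hB S _ μ _ p F hK hR n f hf hfC
  obtain ⟨C, hC⟩ := hfC
  by_cases hn : n % 2 = 0
  · have h1 : (fun ω => f (XX F n ω)) = fun ω => f (ω (n / 2)).1 := by
      funext ω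
      rw [XX, if_pos hn]
    rw [h1]
    exact integral_eval μ (n / 2) f hf
  · have h1 : (fun ω => f (XX F n ω)) =
        fun ω => f (F ((ω (n / 2)).1, (ω (n / 2 + 1)).1) (ω (n / 2 + 1)).2) := by
      funext ω
      rw [XX, if_neg hn]
    have hFm : Measurable fun q : S × (S × unitInterval) => F (q.1, q.2.1) q.2.2 :=
      hR.meas.comp ((measurable_fst.prodMk (measurable_fst.comp measurable_snd)).prodMk
        (measurable_snd.comp measurable_snd))
    have h2 := hI S inferInstance μ inferInstance (n / 2) Set.univ
      (@MeasurableSet.univ _ (base S (n / 2)))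
      (fun y w => f (F (y, w.1) w.2)) (hf.comp hFm) ⟨C, fun y w => hC _⟩
    rw [Measure.restrict_univ] at h2
    rw [h1, h2]
    have h3 : ∀ x : S, ∫ w, f (F (x, w.1) w.2) ∂(μ.prod (volume : Measure unitInterval)) =
        ∫ z, p x z * f z ∂μ := by
      intro x
      rw [hB S inferInstance μ inferInstance p F hK hR x (fun _ z => f z)
        (hf.comp measurable_snd) ⟨C, fun _ z => hC z⟩]
      refine integral_congr_ae (Eventually.of_forall fun z => ?_)
      simp only
      rw [integral_mul_const, hK.row, one_mul]
    simp only [h3]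
    obtain ⟨B, hBd⟩ := hK.bdd
    have hm : Measurable fun q : S × S => p q.1 q.2 * f q.2 :=
      hK.meas.mul (hf.comp measurable_snd)
    have hgm : Measurable fun x : S => ∫ z, p x z * f z ∂μ :=
      (hm.stronglyMeasurable.integral_prod_right (f := fun x z => p x z * f z)).measurable
    rw [integral_eval μ (n / 2) (fun x => ∫ z, p x z * f z ∂μ) hgm]
    have hint : Integrable (Function.uncurry fun x z => p x z * f z) (μ.prod μ) := by
      refine Integrable.of_bound hm.aestronglyMeasurable (B * C) (Eventually.of_forall fun q => ?_)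
      change ‖p q.1 q.2 * f q.2‖ ≤ B * C
      rw [norm_mul, Real.norm_eq_abs, Real.norm_eq_abs, abs_of_nonneg (hK.nonneg _ _)]
      exact mul_le_mul (hBd _ _) (hC _) (abs_nonneg _) ((hK.nonneg q.1 q.2).trans (hBd _ _))
    rw [integral_integral_swap hint]
    refine integral_congr_ae (Eventually.of_forall fun z => ?_)
    simp only
    rw [integral_mul_const, hK.col, one_mul]

end Pool.Agent.W924.MK
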